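import Pool.Agent.Helper14.GS.StD

set_option autoImplicit false

/-! Project GS (MP_627c93_nt): module D13 (assembly of the lower bound for two logarithms). -/

namespace Pool.Agent.Helper6.GS

open Pool.Agent.Helper14.GS

theorem log_ge {p : ℕ} (hp : p.Prime) : (1 : ℝ) / 2 ≤ Real.log p := by
  have h1 : Real.log 2 ≤ Real.log p :=
    Real.log_le_log (by norm_num) (by exact_mod_cast hp.two_le)
  have h2 := Real.log_two_gt_d9
  linarith

theorem ex_pos {α : Type} (s : Finset α) (f : α → ℝ) (h : ∀ x ∈ s, 0 < f x) :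
    ∃ c, 0 < c ∧ ∀ x ∈ s, c ≤ f x := by
  rcases s.eq_empty_or_nonempty with rfl | hs
  · exact ⟨1, one_pos, by simp⟩
  · obtain ⟨x, hx, hmin⟩ := s.exists_min_image f hs
    exact ⟨f x, h x hx, hmin⟩

theorem lin_ne {p q a b : ℕ} (hp : p.Prime) (hq : q.Prime) (hpq : p ≠ q) (ha : 1 ≤ a) :
    0 < |a * Real.log p - b * Real.log q| := by
  rw [abs_pos]
  intro h
  have h1 : (a : ℝ) * Real.log p = b * Real.log q := by linarith
  rw [← Real.log_pow, ← Real.log_pow] at h1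
  have hp0 : (0 : ℝ) < (p : ℝ) ^ a := pow_pos (by exact_mod_cast hp.pos) _
  have hq0 : (0 : ℝ) < (q : ℝ) ^ b := pow_pos (by exact_mod_cast hq.pos) _
  have h2 : (p : ℝ) ^ a = (q : ℝ) ^ b := Real.log_injOn_pos hp0 hq0 h1
  have h3 : p ^ a = q ^ b := by exact_mod_cast h2
  have h4 : p ∣ q ^ b := by
    rw [← h3]
    exact dvd_pow_self p (by omega)
  exact hpq ((Nat.prime_dvd_prime_iff_eq hp hq).1 (hp.dvd_of_dvd_pow h4))

theorem big {x y : ℝ} {a b L c : ℕ} (hx : 1 / 2 ≤ x) (hy : y ≤ c) (hy0 : 0 ≤ y)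
    (h : |a * x - b * y| < 1) (hab : L + 2 * (L * c + 1) + 1 ≤ a + b) : L ≤ b := by
  by_contra hb
  rw [not_le] at hb
  have h1 := (abs_lt.1 h).2
  have hbL : (b : ℝ) ≤ L := by exact_mod_cast hb.le
  have h2 : (b : ℝ) * y ≤ L * c := mul_le_mul hbL hy hy0 (Nat.cast_nonneg _)
  have h3 : (a : ℝ) * (1 / 2) ≤ a * x := mul_le_mul_of_nonneg_left hx (Nat.cast_nonneg _)
  have h4 : (a : ℝ) < 2 * (L * c + 1) := by linarith
  have h5 : a < 2 * (L * c + 1) := by exact_mod_cast h4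
  omega

/-- The main step. -/
theorem mainStep (h11 : StD11) {p q : ℕ} (hp : p.Prime) (hq : q.Prime) (hpq : p ≠ q)
    {c c₀ L T k k₀ κ : ℕ} (hL : 1 ≤ L) (hT : 1 ≤ T) (hk : 1 ≤ k)
    (hc : Real.log p + Real.log q + 1 ≤ c) {n : ℕ} (hn : 1 ≤ n) {d : ℕ} (hd1 : 1 ≤ d)
    (hde : (d : ℝ) ≤ Real.exp (c₀ * n)) (hdd : ∀ r : ℕ, 1 ≤ r → r ≤ n → r ∣ d)
    (hall : ∃ K : ℕ, K ≤ κ * n ∧ L ^ 2 ≤ (2 * k₀ + 1) * n ∧
      2 * L ^ 2 * (k * n) ≤ ((2 * k₀ + 1) * n + 1 - L ^ 2) * T ^ 2 ∧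
      2 * (k * n) ≤ ((2 * k₀ + 1) * n + 1 - L ^ 2) * T ∧ T * (T + K) ≤ k * n * L ^ 2 ∧
      ∀ B d : ℝ, 1 ≤ B → B ≤ Real.exp n → 1 ≤ d → d ≤ Real.exp (c₀ * n) →
        d ^ (T * (k * n * L ^ 2)) * (k * n * L ^ 2).factorial *
          (2 * ((2 : ℝ) ^ ((3 * ((2 * k₀ + 1) * n) + 1 + n) * k) * (2 * L * B) ^ T *
            Real.exp (L * c * (3 * ((2 * k₀ + 1) * n))))) ^ (k * n * L ^ 2)
          < (3 : ℝ) ^ (T * (K * (K - 1) / 2)))
    {a b : ℕ} (hab : Nat.Coprime a b) (hLa : L ≤ a) (hLb : L ≤ b)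
    (hBn : ((a + b : ℕ) : ℝ) ≤ Real.exp n) :
    1 < 2 * |a * Real.log p - b * Real.log q| * L * ((2 * k₀ + 1) * n : ℕ) * (3 : ℝ) ^ (κ * n) := by
  obtain ⟨K, hK, c1, c2, c3, c4, c5⟩ := hall
  by_contra hcon
  rw [not_lt] at hcon
  have hb0 : (0 : ℝ) < b := by
    have : 0 < b := by omega
    exact_mod_cast this
  have hb1 : (1 : ℝ) ≤ b := by
    have : 1 ≤ b := by omega
    exact_mod_cast this
  have hη : |Real.log q - (a : ℝ) / b * Real.log p| ≤ |a * Real.log p - b * Real.log q| := by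
    have e : (a : ℝ) * Real.log p - b * Real.log q =
        -(b * (Real.log q - (a : ℝ) / b * Real.log p)) := by
      field_simp
      ring
    rw [e, abs_neg, abs_mul, abs_of_pos hb0]
    nlinarith [abs_nonneg (Real.log q - (a : ℝ) / b * Real.log p)]
  have hsmall : 2 * |Real.log q - (a : ℝ) / b * Real.log p| * L * ((2 * k₀ + 1) * n : ℕ) *
      ((3 : ℕ) : ℝ) ^ K ≤ 1 := by
    refine le_trans ?_ hcon
    have h3 : ((3 : ℕ) : ℝ) ^ K ≤ (3 : ℝ) ^ (κ * n) := by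
      have : ((3 : ℕ) : ℝ) = 3 := by norm_num
      rw [this]
      exact pow_le_pow_right₀ (by norm_num) hK
    gcongr
  have h := h11 p q a b (a + b) n d k L T ((2 * k₀ + 1) * n) K 3 hp hq hpq hab hL hLa hLb
    (Nat.le_add_right _ _) (Nat.le_add_left _ _) hn hk hT (by norm_num) hd1 hdd c1 c2 c3 c4 hsmall
  have hB1 : (1 : ℝ) ≤ ((a + b : ℕ) : ℝ) := by
    have : 1 ≤ a + b := by omega
    exact_mod_cast this
  have h' := c5 ((a + b : ℕ) : ℝ) d hB1 hBn (by exact_mod_cast hd1) hde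
  have hexp : Real.exp (L * (Real.log p + Real.log q + 1) * (((3 : ℕ) : ℝ) *
      (((2 * k₀ + 1) * n : ℕ) : ℝ))) ≤ Real.exp (L * c * (3 * ((2 * k₀ + 1) * n))) := by
    apply Real.exp_le_exp.2
    push_cast
    gcongr
  have h'' : (d : ℝ) ^ (T * (k * n * L ^ 2)) * (k * n * L ^ 2).factorial *
      (2 * ((2 : ℝ) ^ ((3 * ((2 * k₀ + 1) * n) + 1 + n) * k) * (2 * L * ((a + b : ℕ) : ℝ)) ^ T *
        Real.exp (L * (Real.log p + Real.log q + 1) * (((3 : ℕ) : ℝ) *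
          (((2 * k₀ + 1) * n : ℕ) : ℝ))))) ^ (k * n * L ^ 2) ≤
      (d : ℝ) ^ (T * (k * n * L ^ 2)) * (k * n * L ^ 2).factorial *
      (2 * ((2 : ℝ) ^ ((3 * ((2 * k₀ + 1) * n) + 1 + n) * k) * (2 * L * ((a + b : ℕ) : ℝ)) ^ T *
        Real.exp (L * c * (3 * ((2 * k₀ + 1) * n))))) ^ (k * n * L ^ 2) := by
    gcongr
  have h3 : (((3 : ℕ) : ℝ)) ^ (T * (K * (K - 1) / 2)) = (3 : ℝ) ^ (T * (K * (K - 1) / 2)) := by
    norm_num
  rw [h3] at h
  exact absurd (h.trans (h''.trans h'.le)) (by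
    intro h5
    exact absurd (lt_of_le_of_lt (h.trans h'') h') (lt_irrefl _))

/-- The numerical conclusion. -/
theorem numC {x B : ℝ} {L k₀ κ n : ℕ} (hB : 0 < B) (hn : (n : ℝ) ≤ Real.log B + 1)
    (hL : 1 ≤ L) (h : 1 < 2 * x * L * ((2 * k₀ + 1) * n : ℕ) * (3 : ℝ) ^ (κ * n)) (hx : 0 ≤ x) :
    (2 * L * (2 * k₀ + 1) * Real.exp (2 * κ + 1))⁻¹ * B ^ (-(2 * κ + 1 : ℝ)) ≤ x := by
  have h1 : (n : ℝ) ≤ Real.exp n := by
    have := Real.add_one_le_exp (n : ℝ)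
    linarith
  have h3 : (3 : ℝ) ≤ Real.exp 2 := by
    have := Real.add_one_le_exp (2 : ℝ)
    linarith
  have h4 : (3 : ℝ) ^ (κ * n) ≤ Real.exp (2 * κ * n) := by
    calc (3 : ℝ) ^ (κ * n) ≤ (Real.exp 2) ^ (κ * n) := pow_le_pow_left₀ (by norm_num) h3 _
      _ = Real.exp (2 * κ * n) := by
        rw [← Real.exp_nat_mul]
        congr 1
        push_cast
        ring
  have h5 : Real.exp n * Real.exp (2 * κ * n) ≤ Real.exp (2 * κ + 1) * B ^ (2 * κ + 1 : ℝ) := by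
    rw [← Real.exp_add, Real.rpow_def_of_pos hB, ← Real.exp_add]
    apply Real.exp_le_exp.2
    have h6 : (2 * (κ : ℝ) + 1) * n ≤ (2 * κ + 1) * (Real.log B + 1) :=
      mul_le_mul_of_nonneg_left hn (by positivity)
    linarith
  have h7 : 2 * x * L * ((2 * k₀ + 1) * n : ℕ) * (3 : ℝ) ^ (κ * n) ≤
      x * (2 * L * (2 * k₀ + 1) * Real.exp (2 * κ + 1)) * B ^ (2 * κ + 1 : ℝ) := by
    have h8 : ((2 * k₀ + 1) * n : ℕ) * (3 : ℝ) ^ (κ * n) ≤
        (2 * k₀ + 1) * (Real.exp (2 * κ + 1) * B ^ (2 * κ + 1 : ℝ)) := by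
      push_cast
      calc (2 * (k₀ : ℝ) + 1) * n * (3 : ℝ) ^ (κ * n) ≤
          (2 * (k₀ : ℝ) + 1) * Real.exp n * Real.exp (2 * κ * n) := by gcongr
        _ = (2 * (k₀ : ℝ) + 1) * (Real.exp n * Real.exp (2 * κ * n)) := by ring
        _ ≤ _ := mul_le_mul_of_nonneg_left h5 (by positivity)
    calc 2 * x * L * ((2 * k₀ + 1) * n : ℕ) * (3 : ℝ) ^ (κ * n) =
        (2 * x * L) * (((2 * k₀ + 1) * n : ℕ) * (3 : ℝ) ^ (κ * n)) := by ring
      _ ≤ (2 * x * L) * ((2 * k₀ + 1) * (Real.exp (2 * κ + 1) * B ^ (2 * κ + 1 : ℝ))) :=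
        mul_le_mul_of_nonneg_left h8 (by positivity)
      _ = _ := by ring
  have hA : 0 < 2 * (L : ℝ) * (2 * k₀ + 1) * Real.exp (2 * κ + 1) := by
    have : (0 : ℝ) < L := by exact_mod_cast (by omega : 0 < L)
    positivity
  have hBp : 0 < B ^ (2 * κ + 1 : ℝ) := Real.rpow_pos_of_pos hB _
  rw [Real.rpow_neg hB.le, ← mul_inv, inv_eq_one_div, div_le_iff₀ (mul_pos hA hBp)]
  have h9 := h.le.trans h7
  linarith

theorem D13 (h11 : StD11) (h12 : StD12)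
    (hA3 : ∃ C : ℕ, 1 ≤ C ∧ ∀ N : ℕ, ∃ d : ℕ, 1 ≤ d ∧ d ≤ C ^ N ∧
      ∀ r : ℕ, 1 ≤ r → r ≤ N → r ∣ d) : StD13 := by
  intro p q hp hq hpq
  obtain ⟨C3, hC3, hdex⟩ := hA3
  have hP := log_ge hp
  have hQ := log_ge hq
  obtain ⟨c, hc⟩ := exists_nat_ge (Real.log p + Real.log q + 1)
  have hc1 : 1 ≤ c := by
    have : (1 : ℝ) ≤ c := by linarith
    exact_mod_cast this
  obtain ⟨c₀, hc₀⟩ := exists_nat_ge (Real.log C3 + 1)
  have hC3p : (0 : ℝ) < C3 := by exact_mod_cast (by omega : 0 < C3)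
  have hlogC : 0 ≤ Real.log C3 := Real.log_nonneg (by exact_mod_cast hC3)
  have hc₀1 : 1 ≤ c₀ := by
    have : (1 : ℝ) ≤ c₀ := by linarith
    exact_mod_cast this
  have hC3e : (C3 : ℝ) ≤ Real.exp c₀ := by
    rw [← Real.log_le_iff_le_exp hC3p]
    linarith
  obtain ⟨L, T, k, k₀, κ, n₀, hL, hT, hk, hall⟩ := h12 c c₀ hc1 hc₀1
  obtain ⟨B₀, hB₀⟩ : ∃ B₀ : ℕ, B₀ = 3 ^ n₀ + (L + 2 * (L * c + 1) + 1) := ⟨_, rfl⟩
  -- small pairs
  obtain ⟨c1, hc1p, hc1⟩ := ex_pos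
    (((Finset.range B₀) ×ˢ (Finset.range B₀)).filter fun z : ℕ × ℕ => 1 ≤ z.1)
    (fun z => |z.1 * Real.log p - z.2 * Real.log q|)
    (fun z hz => lin_ne hp hq hpq (Finset.mem_filter.1 hz).2)
  set c2 : ℝ := (2 * L * (2 * k₀ + 1) * Real.exp (2 * κ + 1))⁻¹ with hc2
  have hLp : (0 : ℝ) < L := by exact_mod_cast (by omega : 0 < L)
  have hc2p : 0 < c2 := by positivity
  have hκ : (0 : ℝ) < 2 * κ + 1 := by positivity
  -- coprime pairs
  have key : ∀ a b : ℕ, Nat.Coprime a b → 1 ≤ a → 1 ≤ b →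
      min 1 (min c1 c2) * ((a : ℝ) + b) ^ (-(2 * κ + 1 : ℝ)) ≤
        |a * Real.log p - b * Real.log q| := by
    intro a b hab ha hb
    have hapos : (1 : ℝ) ≤ a := by exact_mod_cast ha
    have hbpos : (1 : ℝ) ≤ b := by exact_mod_cast hb
    have hB1 : (1 : ℝ) ≤ (a : ℝ) + b := by linarith
    have hr1 : ((a : ℝ) + b) ^ (-(2 * κ + 1 : ℝ)) ≤ 1 :=
      Real.rpow_le_one_of_one_le_of_nonpos hB1 (by linarith)
    have hr0 : 0 ≤ ((a : ℝ) + b) ^ (-(2 * κ + 1 : ℝ)) := Real.rpow_nonneg (by linarith) _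
    rcases le_or_gt 1 |a * Real.log p - b * Real.log q| with h1 | h1
    · calc min 1 (min c1 c2) * ((a : ℝ) + b) ^ (-(2 * κ + 1 : ℝ)) ≤ 1 * 1 :=
          mul_le_mul (min_le_left _ _) hr1 hr0 zero_le_one
        _ = 1 := one_mul _
        _ ≤ _ := h1
    rcases lt_or_ge (a + b) B₀ with h2 | h2
    · have h3 := hc1 (a, b) (Finset.mem_filter.2 ⟨Finset.mem_product.2
        ⟨Finset.mem_range.2 (by simp only; omega), Finset.mem_range.2 (by simp only; omega)⟩, ha⟩)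
      calc min 1 (min c1 c2) * ((a : ℝ) + b) ^ (-(2 * κ + 1 : ℝ)) ≤ c1 * 1 :=
          mul_le_mul ((min_le_right _ _).trans (min_le_left _ _)) hr1 hr0 hc1p.le
        _ = c1 := mul_one _
        _ ≤ _ := h3
    · have hLb : L ≤ b := big (y := Real.log q) (c := c) hP (by linarith) (by linarith) h1
        (by have := Nat.one_le_pow n₀ 3 (by norm_num); omega)
      have hLa : L ≤ a := by
        refine big (b := a) (a := b) hQ (y := Real.log p) (c := c) (by linarith)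
          (by linarith) ?_ (by have := Nat.one_le_pow n₀ 3 (by norm_num); omega)
        rw [abs_sub_comm]
        exact h1
      set n := ⌈Real.log ((a : ℝ) + b)⌉₊ with hn
      have hn1 : Real.log ((a : ℝ) + b) ≤ n := Nat.le_ceil _
      have hlog0 : 0 ≤ Real.log ((a : ℝ) + b) := Real.log_nonneg hB1
      have hn2 : (n : ℝ) ≤ Real.log ((a : ℝ) + b) + 1 := (Nat.ceil_lt_add_one hlog0).le
      have hBe : (a : ℝ) + b ≤ Real.exp n := (Real.log_le_iff_le_exp (by linarith)).1 hn1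
      have hn0 : n₀ ≤ n := by
        have h5 : (3 : ℝ) ^ n₀ ≤ (a : ℝ) + b := by
          have : 3 ^ n₀ ≤ a + b := by omega
          exact_mod_cast this
        have h6 : Real.exp n₀ ≤ (3 : ℝ) ^ n₀ := by
          have h7 : Real.exp 1 ≤ 3 := by
            have := Real.exp_one_lt_d9
            linarith
          calc Real.exp n₀ = Real.exp 1 ^ n₀ := by rw [← Real.exp_nat_mul, mul_one]
            _ ≤ _ := pow_le_pow_left₀ (Real.exp_pos _).le h7 _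
        have h7 : Real.exp n₀ ≤ Real.exp n := h6.trans (h5.trans hBe)
        have h8 := Real.exp_le_exp.1 h7
        exact_mod_cast h8
      have hn3 : 1 ≤ n := by
        have h5 : 0 < Real.log ((a : ℝ) + b) := Real.log_pos (by linarith)
        exact Nat.one_le_iff_ne_zero.2 (fun h6 => by
          rw [h6, Nat.cast_zero] at hn1
          linarith)
      obtain ⟨d, hd1, hd2, hd3⟩ := hdex n
      have hde : (d : ℝ) ≤ Real.exp (c₀ * n) := by
        calc (d : ℝ) ≤ ((C3 ^ n : ℕ) : ℝ) := by exact_mod_cast hd2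
          _ = (C3 : ℝ) ^ n := by push_cast; rfl
          _ ≤ (Real.exp c₀) ^ n := pow_le_pow_left₀ hC3p.le hC3e _
          _ = Real.exp (c₀ * n) := by rw [← Real.exp_nat_mul, mul_comm]
      have h9 := mainStep h11 hp hq hpq (c₀ := c₀) (κ := κ) hL hT hk hc hn3 hd1 hde hd3
        (hall n hn0) hab hLa hLb (by push_cast; exact hBe)
      have h10 := numC (x := |a * Real.log p - b * Real.log q|) (B := (a : ℝ) + b)
        (by linarith) hn2 hL h9 (abs_nonneg _)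
      refine le_trans ?_ h10
      rw [← hc2]
      exact mul_le_mul_of_nonneg_right ((min_le_right _ _).trans (min_le_right _ _)) hr0
  refine ⟨2 * κ + 1, min 1 (min c1 c2), hκ, lt_min one_pos (lt_min hc1p hc2p), ?_⟩
  intro a b ha hb
  obtain ⟨g, a', b', hg, hcop, rfl, rfl⟩ := Nat.exists_coprime' (m := a) (n := b)
    (Nat.gcd_pos_of_pos_left _ (by omega))
  have ha' : 1 ≤ a' := Nat.one_le_iff_ne_zero.2 (fun h => by simp [h] at ha)
  have hb' : 1 ≤ b' := Nat.one_le_iff_ne_zero.2 (fun h => by simp [h] at hb)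
  have hapos : (1 : ℝ) ≤ a' := by exact_mod_cast ha'
  have hbpos : (1 : ℝ) ≤ b' := by exact_mod_cast hb'
  have hg1 : (1 : ℝ) ≤ g := by exact_mod_cast hg
  have h1 := key a' b' hcop ha' hb'
  have h2 : |((a' * g : ℕ) : ℝ) * Real.log p - ((b' * g : ℕ) : ℝ) * Real.log q| =
      g * |a' * Real.log p - b' * Real.log q| := by
    have e : ((a' * g : ℕ) : ℝ) * Real.log p - ((b' * g : ℕ) : ℝ) * Real.log q =
        g * (a' * Real.log p - b' * Real.log q) := by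
      push_cast
      ring
    rw [e, abs_mul, abs_of_nonneg (by linarith : (0 : ℝ) ≤ g)]
  have h3 : (((a' * g : ℕ) : ℝ) + ((b' * g : ℕ) : ℝ)) ^ (-(2 * κ + 1 : ℝ)) ≤
      ((a' : ℝ) + b') ^ (-(2 * κ + 1 : ℝ)) := by
    refine Real.rpow_le_rpow_of_nonpos (by linarith) ?_ (by linarith)
    push_cast
    nlinarith
  have h4 : (0 : ℝ) ≤ min 1 (min c1 c2) := (lt_min one_pos (lt_min hc1p hc2p)).le
  rw [h2]
  calc min 1 (min c1 c2) * (((a' * g : ℕ) : ℝ) + ((b' * g : ℕ) : ℝ)) ^ (-(2 * κ + 1 : ℝ)) ≤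
      min 1 (min c1 c2) * ((a' : ℝ) + b') ^ (-(2 * κ + 1 : ℝ)) :=
        mul_le_mul_of_nonneg_left h3 h4
    _ ≤ |a' * Real.log p - b' * Real.log q| := h1
    _ ≤ g * |a' * Real.log p - b' * Real.log q| := by
      nlinarith [abs_nonneg ((a' : ℝ) * Real.log p - b' * Real.log q)]

end Pool.Agent.Helper6.GS
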