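import Pool.Agent.Helper79.GS.St1

/-!
# Project GS, module MON: budgets
-/

set_option autoImplicit false

namespace Pool.Agent.Helper6.GS

open Pool.Agent.Helper79.GS Pool.Agent.Helper19.SK

theorem hMON : StMON := by
  intro P A r r' b hr hb k x hx
  exact (hb k x hx).trans hr

end Pool.Agent.Helper6.GS
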